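import Mathlib

namespace Pool.Agent.Results.MP_746574_co.ReconfTree

open SimpleGraph

universe u

variable {V : Type u}

/-- `S` is a dominating set of `G`: every vertex is in `S` or has a neighbour in `S`. -/
def Dominates (G : SimpleGraph V) (S : Set V) : Prop :=
  ∀ v, v ∈ S ∨ ∃ w ∈ S, G.Adj v w

/-- `M` is a minimal dominating set of `G`. -/
def MinDominating (G : SimpleGraph V) (M : Set V) : Prop :=
  Dominates G M ∧ ∀ v ∈ M, ¬ Dominates G (M \ {v})

/-- `M₂` is obtained from `M₁` by adding the single vertex `v` and removing only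
neighbours of `v`. -/
def Expand (G : SimpleGraph V) (v : V) (M₁ M₂ : Set V) : Prop :=
  M₂ \ M₁ = {v} ∧ M₁ \ M₂ ⊆ G.neighborSet v

/-- Adjacency of the reconfiguration graph. -/
def RAdj (G : SimpleGraph V) (M₁ M₂ : Set V) : Prop :=
  M₁ ≠ M₂ ∧ ∃ v, Expand G v M₁ M₂ ∨ Expand G v M₂ M₁

/-- The reconfiguration graph `R(G)` on the minimal dominating sets of `G`. -/
def reconf (G : SimpleGraph V) : SimpleGraph {M : Set V // MinDominating G M} where
  Adj M₁ M₂ := RAdj G M₁.1 M₂.1
  symm := ⟨fun _ _ h => ⟨h.1.symm, h.2.imp fun _ hv => hv.symm⟩⟩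
  loopless := ⟨fun _ h => h.1 rfl⟩

/-- all edges of `G` share a common vertex (or there are no edges) -/
def Starlike (G : SimpleGraph V) : Prop :=
  (∀ a b, ¬ G.Adj a b) ∨ ∃ c, ∀ a b, G.Adj a b → a = c ∨ b = c

/-- maximal independent sets -/
def MIS (G : SimpleGraph V) (M : Set V) : Prop :=
  (∀ a ∈ M, ∀ b ∈ M, ¬ G.Adj a b) ∧ ∀ v, v ∉ M → ∃ w ∈ M, G.Adj v w

theorem MIS.minDom {G : SimpleGraph V} {M : Set V} (h : MIS G M) : MinDominating G M := by
  refine ⟨fun v => ?_, fun v hv hd => ?_⟩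
  · by_cases hv : v ∈ M
    · exact Or.inl hv
    · exact Or.inr (h.2 v hv)
  · rcases hd v with h1 | ⟨w, hw, hvw⟩
    · exact h1.2 rfl
    · exact h.1 v hv w hw.1 hvw

theorem exists_mis [Finite V] (G : SimpleGraph V) (I : Set V)
    (hI : ∀ a ∈ I, ∀ b ∈ I, ¬ G.Adj a b) : ∃ K, I ⊆ K ∧ MIS G K := by
  obtain ⟨K, hIK, hK⟩ := Finite.exists_le_maximal (α := Set V)
    (p := fun S => ∀ a ∈ S, ∀ b ∈ S, ¬ G.Adj a b) hI
  refine ⟨K, hIK, hK.1, fun v hv => ?_⟩
  by_contra hno
  push Not at hno
  have h1 : ∀ a ∈ insert v K, ∀ b ∈ insert v K, ¬ G.Adj a b := by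
    intro a ha b hb hab
    rcases ha with rfl | ha <;> rcases hb with rfl | hb
    · exact hab.ne rfl
    · exact hno b hb hab
    · exact hno a ha hab.symm
    · exact hK.1 a ha b hb hab
  exact hv (hK.2 h1 (Set.subset_insert v K) (Set.mem_insert v K))

theorem not_acyclic_of_two {W : Type u} [Finite W] (H : SimpleGraph W) (C : Set W)
    (hne : C.Nonempty)
    (h2 : ∀ w ∈ C, ∃ a ∈ C, ∃ b ∈ C, a ≠ b ∧ H.Adj w a ∧ H.Adj w b) : ¬ H.IsAcyclic := by
  classical
  intro hac
  have key : ∀ n : ℕ, ∃ (a b : W) (p : H.Walk a b), p.IsPath ∧ p.length = n ∧ b ∈ C := by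
    intro n
    induction n with
    | zero =>
      obtain ⟨w, hw⟩ := hne
      exact ⟨w, w, Walk.nil, Walk.IsPath.nil, rfl, hw⟩
    | succ n ih =>
      obtain ⟨s, w, p, hp, hl, hw⟩ := ih
      obtain ⟨a, ha, b, hb, hab, hwa, hwb⟩ := h2 w hw
      by_cases h1 : a ∈ p.support
      · by_cases h3 : b ∈ p.support
        · exact absurd ((hac.eq_penultimate_of_adj_end hp hwa h1).trans
            (hac.eq_penultimate_of_adj_end hp hwb h3).symm) hab
        · exact ⟨s, b, p.concat hwb, hp.concat h3 hwb, by simp [hl], hb⟩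
      · exact ⟨s, a, p.concat hwa, hp.concat h1 hwa, by simp [hl], ha⟩
  have := Fintype.ofFinite W
  obtain ⟨a, b, p, hp, hl, -⟩ := key (Fintype.card W)
  have := hp.length_lt
  omega

/-- non-neighbourhood of `z` -/
def away (G : SimpleGraph V) (z : V) : Set V := {w | w ≠ z ∧ ¬ G.Adj z w}

theorem embed_minDom (G : SimpleGraph V) (z : V) (T : Set (away G z))
    (hT : MinDominating (G.induce (away G z)) T) :
    MinDominating G (insert z (Subtype.val '' T)) := by
  refine ⟨fun v => ?_, fun v hv hd => ?_⟩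
  · by_cases h1 : v = z
    · exact Or.inl (Or.inl h1)
    by_cases h2 : G.Adj z v
    · exact Or.inr ⟨z, Set.mem_insert _ _, h2.symm⟩
    rcases hT.1 ⟨v, h1, h2⟩ with h3 | ⟨w, hw, hvw⟩
    · exact Or.inl (Or.inr ⟨_, h3, rfl⟩)
    · exact Or.inr ⟨w, Or.inr ⟨w, hw, rfl⟩, hvw⟩
  · rcases hv with rfl | ⟨w, hw, rfl⟩
    · rcases hd v with h1 | ⟨w, hw, hvw⟩
      · exact h1.2 rfl
      · rcases hw.1 with rfl | ⟨x, hx, rfl⟩
        · exact hvw.ne rfl
        · exact x.2.2 hvw
    · refine hT.2 w hw fun x => ?_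
      rcases hd x with h1 | ⟨y, hy, hxy⟩
      · rcases h1.1 with h2 | ⟨x', hx', h2⟩
        · exact absurd h2 x.2.1
        · have h3 : x' = x := Subtype.ext h2
          subst h3
          exact Or.inl ⟨hx', fun h4 => h1.2 (by rw [h4]; rfl)⟩
      · rcases hy.1 with rfl | ⟨y', hy', rfl⟩
        · exact absurd hxy.symm x.2.2
        · exact Or.inr ⟨y', ⟨hy', fun h4 => hy.2 (by rw [h4]; rfl)⟩, hxy⟩

theorem insert_image_inj (G : SimpleGraph V) (z : V) {T S : Set (away G z)}
    (h : insert z (Subtype.val '' T : Set V) = insert z (Subtype.val '' S)) : T = S := by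
  ext x
  have hx : x.1 ≠ z := x.2.1
  have h1 : x.1 ∈ insert z (Subtype.val '' T : Set V) ↔ x.1 ∈ insert z (Subtype.val '' S : Set V) := by
    rw [h]
  simpa [hx] using h1

theorem embed_sdiff (G : SimpleGraph V) (z : V) (T S : Set (away G z)) :
    insert z (Subtype.val '' T : Set V) \ insert z (Subtype.val '' S) =
      Subtype.val '' (T \ S) := by
  ext x
  constructor
  · rintro ⟨h1, h2⟩
    rcases h1 with rfl | ⟨w, hw, rfl⟩
    · exact absurd (Set.mem_insert _ _) h2
    · exact ⟨w, ⟨hw, fun h3 => h2 (Or.inr ⟨w, h3, rfl⟩)⟩, rfl⟩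
  · rintro ⟨w, ⟨h1, h2⟩, rfl⟩
    refine ⟨Or.inr ⟨w, h1, rfl⟩, ?_⟩
    rintro (h3 | ⟨y, hy, h3⟩)
    · exact w.2.1 h3
    · exact h2 (by rwa [← Subtype.ext h3])

theorem embed_expand (G : SimpleGraph V) (z : V) (T S : Set (away G z)) (v : away G z)
    (h : Expand (G.induce (away G z)) v T S) :
    Expand G v.1 (insert z (Subtype.val '' T)) (insert z (Subtype.val '' S)) := by
  refine ⟨?_, ?_⟩
  · rw [embed_sdiff, h.1, Set.image_singleton]
  · rw [embed_sdiff]
    rintro _ ⟨x, hx, rfl⟩
    exact h.2 hx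

theorem acyclic_away (G : SimpleGraph V) (z : V) (h : (reconf G).IsAcyclic) :
    (reconf (G.induce (away G z))).IsAcyclic := by
  refine h.comap (⟨fun T => ⟨insert z (Subtype.val '' T.1), embed_minDom G z T.1 T.2⟩, ?_⟩ :
    reconf (G.induce (away G z)) →g reconf G) ?_
  · rintro T S ⟨hne, v, hv⟩
    refine ⟨fun h1 => hne (insert_image_inj G z h1), v.1, ?_⟩
    exact hv.imp (embed_expand G z _ _ v) (embed_expand G z _ _ v)
  · intro T S h1
    exact Subtype.ext (insert_image_inj G z (congrArg Subtype.val h1))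

theorem away_center {G : SimpleGraph V} {z : V} (h : Starlike (G.induce (away G z))) :
    ∃ c : V, ∀ a ∈ away G z, ∀ b ∈ away G z, G.Adj a b → a = c ∨ b = c := by
  rcases h with h | ⟨c, h⟩
  · exact ⟨z, fun a ha b hb hab => absurd hab (h ⟨a, ha⟩ ⟨b, hb⟩)⟩
  · refine ⟨c.1, fun a ha b hb hab => ?_⟩
    exact (h ⟨a, ha⟩ ⟨b, hb⟩ hab).imp (congrArg Subtype.val) (congrArg Subtype.val)

/-- class of minimal dominating sets used in the degree argument -/
def Good (G : SimpleGraph V) (N : Set V) : Prop :=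
  MIS G N ∨ (MinDominating G N ∧ ∃ K₁ K₂, MIS G K₁ ∧ MIS G K₂ ∧ K₁ ≠ K₂ ∧
    RAdj G N K₁ ∧ RAdj G N K₂)

theorem Good.minDom {G : SimpleGraph V} {N : Set V} (h : Good G N) : MinDominating G N :=
  h.elim MIS.minDom And.left

theorem pair_good [Finite V] {G : SimpleGraph V} {M : Set V} (hM : MIS G M) {z f x : V}
    (hz : z ∈ M) (hzw : ∀ w, w ∉ M → G.Adj z w) (hf : f ∉ M) (hfm : ∀ m ∈ M, G.Adj f m)
    (hx : x ∈ M) (hxz : x ≠ z) :
    ∃ N, Good G N ∧ RAdj G M N ∧ f ∈ N ∧ N ⊆ {z, f} := by
  by_cases hd : Dominates G {f}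
  · refine ⟨{f}, Or.inl ⟨?_, ?_⟩, ⟨?_, f, Or.inl ⟨?_, ?_⟩⟩, rfl, ?_⟩
    · rintro a rfl b rfl hab
      exact hab.ne rfl
    · intro v hv
      rcases hd v with h1 | h1
      · exact absurd h1 hv
      · exact h1
    · rintro rfl
      exact hf rfl
    · ext w
      constructor
      · rintro ⟨h1, -⟩
        exact h1
      · rintro rfl
        exact ⟨rfl, hf⟩
    · rintro w ⟨h1, -⟩
      exact hfm w h1
    · rintro w rfl
      exact Or.inr rfl
  · have hfz : f ≠ z := fun h => hf (h ▸ hz)
    have hmd : MinDominating G {z, f} := by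
      refine ⟨fun v => ?_, fun v hv hd' => ?_⟩
      · by_cases hv : v ∈ M
        · exact Or.inr ⟨f, Or.inr rfl, (hfm v hv).symm⟩
        · exact Or.inr ⟨z, Or.inl rfl, (hzw v hv).symm⟩
      · rcases hv with rfl | rfl
        · apply hd
          have h1 : ({v, f} : Set V) \ {v} = {f} := by
            ext w
            simp only [Set.mem_sdiff, Set.mem_insert_iff, Set.mem_singleton_iff]
            constructor
            · rintro ⟨h1 | h1, h2⟩
              · exact absurd h1 h2
              · exact h1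
            · rintro rfl
              exact ⟨Or.inr rfl, hfz⟩
          rwa [h1] at hd'
        · rcases hd' x with h1 | ⟨w, ⟨hw, hw2⟩, hxw⟩
          · rcases h1.1 with h2 | h2
            · exact hxz h2
            · exact hf (h2 ▸ hx)
          · rcases hw with rfl | h2
            · exact hM.1 x hx w hz hxw
            · exact hw2 h2
    obtain ⟨K, hK1, hK⟩ := exists_mis G {f} (by
      rintro a rfl b rfl hab
      exact hab.ne rfl)
    have hfK : f ∈ K := hK1 rfl
    have hKM : ∀ k ∈ K, k ∉ M := fun k hk hkM => hK.1 f hfK k hk (hfm k hkM)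
    have hR1 : RAdj G M {z, f} := by
      refine ⟨?_, f, Or.inl ⟨?_, ?_⟩⟩
      · intro h
        exact hf (h ▸ Or.inr rfl)
      · ext w
        constructor
        · rintro ⟨h1 | h1, h2⟩
          · exact absurd (h1 ▸ hz) h2
          · exact h1
        · rintro rfl
          exact ⟨Or.inr rfl, hf⟩
      · rintro w ⟨h1, -⟩
        exact hfm w h1
    refine ⟨{z, f}, Or.inr ⟨hmd, M, K, hM, hK, ?_, ?_, ?_⟩, hR1, Or.inr rfl, subset_rfl⟩
    · rintro rfl
      exact hf hfK
    · exact ⟨hR1.1.symm, hR1.2.imp fun _ h => h.symm⟩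
    · refine ⟨?_, z, Or.inr ⟨?_, ?_⟩⟩
      · intro h
        exact hKM z (h ▸ Or.inl rfl) hz
      · ext w
        constructor
        · rintro ⟨h1 | h1, h2⟩
          · exact h1
          · exact absurd (h1 ▸ hfK) h2
        · rintro rfl
          exact ⟨Or.inl rfl, fun h => hKM w h hz⟩
      · rintro w ⟨h1, -⟩
        exact hzw w (hKM w h1)

/-- external private neighbours -/
def epn (G : SimpleGraph V) (M : Set V) (x : V) : Set V :=
  {w | w ∉ M ∧ ∀ m ∈ M, G.Adj w m ↔ m = x}

theorem swap_good {G : SimpleGraph V} {M : Set V} (hM : MIS G M) {x e : V}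
    (hx : x ∈ M) (he : e ∈ epn G M x)
    (hind : ∀ a ∈ epn G M x, ∀ b ∈ epn G M x, ¬ G.Adj a b) :
    MIS G ((M \ {x}) ∪ epn G M x) ∧ RAdj G M ((M \ {x}) ∪ epn G M x) := by
  refine ⟨⟨?_, ?_⟩, ?_, x, Or.inr ⟨?_, ?_⟩⟩
  · rintro a (ha | ha) b (hb | hb) hab
    · exact hM.1 a ha.1 b hb.1 hab
    · exact ha.2 ((hb.2 a ha.1).1 hab.symm)
    · exact hb.2 ((ha.2 b hb.1).1 hab)
    · exact hind a ha b hb hab
  · intro v hv
    by_cases hvx : v = x
    · subst hvx
      exact ⟨e, Or.inr he, ((he.2 v hx).2 rfl).symm⟩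
    have hvM : v ∉ M := fun h => hv (Or.inl ⟨h, hvx⟩)
    by_contra hno
    push Not at hno
    obtain ⟨w, hw, hvw⟩ := hM.2 v hvM
    refine hv (Or.inr ⟨hvM, fun m hm => ⟨fun h => ?_, fun h => ?_⟩⟩)
    · by_contra hmx
      exact hno m (Or.inl ⟨hm, hmx⟩) h
    · have : w = x := by
        by_contra hwx
        exact hno w (Or.inl ⟨hw, hwx⟩) hvw
      rw [h, ← this]
      exact hvw
  · intro h
    have : x ∈ (M \ {x}) ∪ epn G M x := h ▸ hx
    rcases this with h1 | h1
    · exact h1.2 rfl
    · exact h1.1 hx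
  · ext w
    constructor
    · rintro ⟨h1, h2⟩
      by_contra h3
      exact h2 (Or.inl ⟨h1, h3⟩)
    · rintro rfl
      refine ⟨hx, ?_⟩
      rintro (h1 | h1)
      · exact h1.2 rfl
      · exact h1.1 hx
  · rintro w ⟨h1 | h1, h2⟩
    · exact absurd h1.1 h2
    · exact ((h1.2 x hx).2 rfl).symm

theorem swap_not_mem {G : SimpleGraph V} {M : Set V} {x : V} (hx : x ∈ M) :
    x ∉ (M \ {x}) ∪ epn G M x := by
  rintro (h1 | h1)
  · exact h1.2 rfl
  · exact h1.1 hx

/-- the set `{v} ∪ (M ∖ N(v))` -/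
def rep (G : SimpleGraph V) (M : Set V) (v : V) : Set V := insert v {m | m ∈ M ∧ ¬ G.Adj v m}

theorem rep_adj {G : SimpleGraph V} {M : Set V} {v : V} (hv : v ∉ M) :
    RAdj G M (rep G M v) := by
  refine ⟨fun h => hv (h ▸ Or.inl rfl), v, Or.inl ⟨?_, ?_⟩⟩
  · ext w
    constructor
    · rintro ⟨h1 | h1, h2⟩
      · exact h1
      · exact absurd h1.1 h2
    · rintro rfl
      exact ⟨Or.inl rfl, hv⟩
  · rintro w ⟨h1, h2⟩
    by_contra h3
    exact h2 (Or.inr ⟨h1, h3⟩)

theorem two_good [Finite V] {G : SimpleGraph V}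
    (H1 : ∀ z, Starlike (G.induce (away G z))) (hG : ¬ Starlike G) {M : Set V}
    (hM : MIS G M) :
    ∃ N₁ N₂, N₁ ≠ N₂ ∧ Good G N₁ ∧ Good G N₂ ∧ RAdj G M N₁ ∧ RAdj G M N₂ := by
  have hG' : ∀ c, ∃ a b, G.Adj a b ∧ a ≠ c ∧ b ≠ c := by
    intro c
    by_contra hno
    push Not at hno
    apply hG
    refine Or.inr ⟨c, fun a b hab => ?_⟩
    by_cases hac : a = c
    · exact Or.inl hac
    · exact Or.inr (hno a b hab hac)
  have noiso : ∀ z, ∃ w, G.Adj z w := by
    intro z
    by_contra hno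
    push Not at hno
    obtain ⟨c, hc⟩ := away_center (H1 z)
    obtain ⟨a, b, hab, hac, hbc⟩ := hG' c
    have haz : a ≠ z := by
      rintro rfl
      exact hno b hab
    have hbz : b ≠ z := by
      rintro rfl
      exact hno a hab.symm
    rcases hc a ⟨haz, hno a⟩ b ⟨hbz, hno b⟩ hab with h | h
    · exact hac h
    · exact hbc h
  have keyP : ∀ v v' z x x', v ∉ M → v' ∉ M → v ≠ v' → z ∈ M → ¬ G.Adj v z → ¬ G.Adj v' z →
      x ∈ M → x' ∈ M → G.Adj v x → G.Adj v' x' → x = x' := by
    intro v v' z x x' hv hv' hvv hz hvz hvz' hx hx' hvx hvx'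
    obtain ⟨c, hc⟩ := away_center (H1 z)
    have a1 : v ∈ away G z := ⟨fun h => hv (h ▸ hz), fun h => hvz h.symm⟩
    have a2 : v' ∈ away G z := ⟨fun h => hv' (h ▸ hz), fun h => hvz' h.symm⟩
    have a3 : x ∈ away G z := ⟨fun h => hvz (h ▸ hvx), hM.1 z hz x hx⟩
    have a4 : x' ∈ away G z := ⟨fun h => hvz' (h ▸ hvx'), hM.1 z hz x' hx'⟩
    rcases hc v a1 x a3 hvx with h1 | h1 <;> rcases hc v' a2 x' a4 hvx' with h2 | h2
    · exact absurd (h1.trans h2.symm) hvv
    · exact absurd (h1.trans h2.symm ▸ hx') hv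
    · exact absurd (h2.trans h1.symm ▸ hx) hv'
    · exact h1.trans h2.symm
  by_cases hcard : ∃ x ∈ M, ∃ y ∈ M, x ≠ y
  swap
  · -- `M` is a singleton
    push Not at hcard
    obtain ⟨a0, -, -⟩ := hG' (Classical.choice (by
      by_contra hemp
      rw [not_nonempty_iff] at hemp
      exact hG (Or.inl fun a => (hemp.false a).elim)))
    have hMne : ∃ u, u ∈ M := by
      by_cases h : a0 ∈ M
      · exact ⟨a0, h⟩
      · obtain ⟨w, hw, -⟩ := hM.2 a0 h
        exact ⟨w, hw⟩
    obtain ⟨u, hu⟩ := hMne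
    have hMu : M = {u} := by
      ext w
      exact ⟨fun h => hcard w h u hu, fun h => by rw [Set.mem_singleton_iff.1 h]; exact hu⟩
    have hdom : ∀ w, w ≠ u → G.Adj u w := by
      intro w hw
      obtain ⟨w', hw', hww'⟩ := hM.2 w (by rw [hMu]; exact hw)
      rw [hMu, Set.mem_singleton_iff] at hw'
      rw [← hw']
      exact hww'.symm
    obtain ⟨a, b, hab, hau, hbu⟩ := hG' u
    have hone : ∀ t, t ≠ u → ∃ K, t ∈ K ∧ MIS G K ∧ RAdj G M K := by
      intro t htu
      obtain ⟨K, hK1, hK⟩ := exists_mis G {t} (by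
        rintro a rfl b rfl hab
        exact hab.ne rfl)
      have htK : t ∈ K := hK1 rfl
      have huK : u ∉ K := fun h => hK.1 u h t htK (hdom t htu)
      refine ⟨K, htK, hK, ?_, u, Or.inr ⟨?_, ?_⟩⟩
      · intro h
        exact huK (h ▸ hu)
      · rw [hMu]
        ext w
        constructor
        · rintro ⟨h1, -⟩
          exact h1
        · rintro rfl
          exact ⟨rfl, huK⟩
      · rintro w ⟨h1, h2⟩
        exact hdom w (fun h => huK (h ▸ h1))
    obtain ⟨K1, h1, h2, h3⟩ := hone a hau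
    obtain ⟨K2, h4, h5, h6⟩ := hone b hbu
    refine ⟨K1, K2, ?_, Or.inl h2, Or.inl h5, h3, h6⟩
    rintro rfl
    exact h2.1 a h1 b h4 hab
  -- `M` has at least two elements
  have hother : ∀ x, ∃ z ∈ M, z ≠ x := by
    intro x
    obtain ⟨a, ha, b, hb, hab⟩ := hcard
    by_cases h : a = x
    · exact ⟨b, hb, fun h' => hab (h.trans h'.symm)⟩
    · exact ⟨a, ha, h⟩
  have hind : ∀ x ∈ M, ∀ a ∈ epn G M x, ∀ b ∈ epn G M x, ¬ G.Adj a b := by
    intro x hx a ha b hb hab
    obtain ⟨z, hz, hzx⟩ := hother x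
    obtain ⟨c, hc⟩ := away_center (H1 z)
    have haz : ¬ G.Adj a z := fun h => hzx ((ha.2 z hz).1 h)
    have hbz : ¬ G.Adj b z := fun h => hzx ((hb.2 z hz).1 h)
    have a1 : a ∈ away G z := ⟨fun h => ha.1 (h ▸ hz), fun h => haz h.symm⟩
    have a2 : b ∈ away G z := ⟨fun h => hb.1 (h ▸ hz), fun h => hbz h.symm⟩
    have a3 : x ∈ away G z := ⟨fun h => hzx h.symm, hM.1 z hz x hx⟩
    have hax : G.Adj a x := (ha.2 x hx).2 rfl
    have hbx : G.Adj b x := (hb.2 x hx).2 rfl
    have e1 := hc a a1 b a2 hab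
    have e2 := hc a a1 x a3 hax
    have e3 := hc b a2 x a3 hbx
    have n1 := hab.ne
    have n2 := hax.ne
    have n3 := hbx.ne
    grind
  by_cases hA : ∃ x ∈ M, ∃ y ∈ M, x ≠ y ∧ (epn G M x).Nonempty ∧ (epn G M y).Nonempty
  · obtain ⟨x, hx, y, hy, hxy, ⟨e, he⟩, ⟨e', he'⟩⟩ := hA
    obtain ⟨h1, h2⟩ := swap_good hM hx he (hind x hx)
    obtain ⟨h3, h4⟩ := swap_good hM hy he' (hind y hy)
    refine ⟨_, _, ?_, Or.inl h1, Or.inl h3, h2, h4⟩
    intro h
    have : x ∈ (M \ {y}) ∪ epn G M y := Or.inl ⟨hx, hxy⟩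
    rw [← h] at this
    exact swap_not_mem hx this
  push Not at hA
  by_cases hB : ∃ x ∈ M, (epn G M x).Nonempty
  · obtain ⟨x, hx, ⟨e, he⟩⟩ := hB
    obtain ⟨h1, h2⟩ := swap_good hM hx he (hind x hx)
    have hempty : ∀ y ∈ M, y ≠ x → ∀ w, w ∉ epn G M y := by
      intro y hy hyx w hw
      have := hA x hx y hy hyx.symm ⟨e, he⟩
      rw [this] at hw
      exact hw
    have hF : ∀ f, f ∉ M → f ∉ epn G M x → ∀ m ∈ M, m ≠ x → G.Adj f m := by
      intro f hf hfe m hm hmx
      by_contra hno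
      have hfe' : f ≠ e := fun h => hfe (h ▸ he)
      have hem : ¬ G.Adj e m := fun h => hmx ((he.2 m hm).1 h)
      have hex : G.Adj e x := (he.2 x hx).2 rfl
      have hall : ∀ x' ∈ M, G.Adj f x' → x = x' := fun x' hx' hfx' =>
        keyP e f m x x' he.1 hf hfe'.symm hm hem hno hx hx' hex hfx'
      obtain ⟨w, hw, hfw⟩ := hM.2 f hf
      apply hfe
      refine ⟨hf, fun m' hm' => ⟨fun h => (hall m' hm' h).symm, fun h => ?_⟩⟩
      rw [h, hall w hw hfw]
      exact hfw
    by_cases hb1 : ∃ f, f ∉ M ∧ f ∉ epn G M x ∧ ¬ G.Adj f x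
    · obtain ⟨f, hf, hfe, hfx⟩ := hb1
      obtain ⟨y, hy, hyx⟩ := hother x
      have hmis : MIS G {x, f} := by
        refine ⟨?_, ?_⟩
        · rintro a (rfl | rfl) b (rfl | rfl) hab
          · exact hab.ne rfl
          · exact hfx hab.symm
          · exact hfx hab
          · exact hab.ne rfl
        · intro v hv
          have hvx : v ≠ x := fun h => hv (Or.inl h)
          have hvf : v ≠ f := fun h => hv (Or.inr h)
          by_cases hvM : v ∈ M
          · exact ⟨f, Or.inr rfl, (hF f hf hfe v hvM hvx).symm⟩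
          by_cases hve : v ∈ epn G M x
          · exact ⟨x, Or.inl rfl, (hve.2 x hx).2 rfl⟩
          by_cases hvx' : G.Adj v x
          · exact ⟨x, Or.inl rfl, hvx'⟩
          exfalso
          have hvy : G.Adj v y := hF v hvM hve y hy hyx
          have hfy : G.Adj f y := hF f hf hfe y hy hyx
          refine hempty y hy hyx v ⟨hvM, fun m hm => ⟨fun h => ?_, fun h => by rw [h]; exact hvy⟩⟩
          exact keyP v f x m y hvM hf hvf hx hvx' hfx hm hy h hfy
      refine ⟨_, {x, f}, ?_, Or.inl h1, Or.inl hmis, h2, ?_, f, Or.inl ⟨?_, ?_⟩⟩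
      · intro h
        apply swap_not_mem (G := G) hx
        rw [h]
        exact Or.inl rfl
      · intro h
        exact hf (h ▸ Or.inr rfl)
      · ext w
        constructor
        · rintro ⟨h3 | h3, h4⟩
          · exact absurd (h3 ▸ hx) h4
          · exact h3
        · rintro rfl
          exact ⟨Or.inr rfl, hf⟩
      · rintro w ⟨h3, h4⟩
        exact hF f hf hfe w h3 (fun h => h4 (Or.inl h))
    · push Not at hb1
      obtain ⟨y, hy, hyx⟩ := hother x
      obtain ⟨f, hyf⟩ := noiso y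
      have hfM : f ∉ M := fun h => hM.1 y hy f h hyf
      have hfe : f ∉ epn G M x := fun h => hyx ((h.2 y hy).1 hyf.symm)
      have hxw : ∀ w, w ∉ M → G.Adj x w := by
        intro w hw
        by_cases hwe : w ∈ epn G M x
        · exact ((hwe.2 x hx).2 rfl).symm
        · exact (hb1 w hw hwe).symm
      have hfm : ∀ m ∈ M, G.Adj f m := by
        intro m hm
        by_cases hmx : m = x
        · rw [hmx]
          exact (hxw f hfM).symm
        · exact hF f hfM hfe m hm hmx
      obtain ⟨N, hN1, hN2, hN3, hN4⟩ := pair_good hM hx hxw hfM hfm hy hyx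
      refine ⟨_, N, ?_, Or.inl h1, hN1, h2, hN2⟩
      intro h
      rw [← h] at hN3
      rcases hN3 with h3 | h3
      · exact hfM h3.1
      · exact hfe h3
  · push Not at hB
    have hempty : ∀ y ∈ M, ∀ w, w ∉ epn G M y := by
      intro y hy w hw
      rw [hB y hy] at hw
      exact hw
    have htwo : ∀ v, v ∉ M → ∀ w ∈ M, ∃ w' ∈ M, w' ≠ w ∧ G.Adj v w' := by
      intro v hv w hw
      by_contra hno
      push Not at hno
      obtain ⟨w', hw', hvw'⟩ := hM.2 v hv
      have h1 : w' = w := by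
        by_contra h
        exact hno w' hw' h hvw'
      subst h1
      refine hempty w' hw v ⟨hv, fun m hm => ⟨fun h => ?_, fun h => by rw [h]; exact hvw'⟩⟩
      by_contra h2
      exact hno m hm h2 h
    have keyP' : ∀ v v' z, v ∉ M → v' ∉ M → v ≠ v' → z ∈ M → ¬ G.Adj v z → G.Adj v' z := by
      intro v v' z hv hv' hvv hz hvz
      by_contra hvz'
      obtain ⟨w, hw, hvw⟩ := hM.2 v hv
      obtain ⟨w', hw', hww', hvw'⟩ := htwo v' hv' w hw
      exact hww' (keyP v v' z w w' hv hv' hvv hz hvz hvz' hw hw' hvw hvw').symm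
    have hrep : ∀ v z, v ∉ M → z ∈ M → ¬ G.Adj v z → MIS G (rep G M v) := by
      intro v z hv hz hvz
      refine ⟨?_, ?_⟩
      · rintro a (rfl | ha) b (rfl | hb) hab
        · exact hab.ne rfl
        · exact hb.2 hab
        · exact ha.2 hab.symm
        · exact hM.1 a ha.1 b hb.1 hab
      · intro u hu
        by_cases huM : u ∈ M
        · refine ⟨v, Or.inl rfl, ?_⟩
          by_contra h
          exact hu (Or.inr ⟨huM, fun h' => h h'.symm⟩)
        · refine ⟨z, Or.inr ⟨hz, hvz⟩, ?_⟩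
          exact keyP' v u z hv huM (fun h => hu (Or.inl h.symm)) hz hvz
    by_cases hc1 : ∃ v z, v ∉ M ∧ z ∈ M ∧ ¬ G.Adj v z
    · obtain ⟨v, z, hv, hz, hvz⟩ := hc1
      have hm1 := hrep v z hv hz hvz
      by_cases hc2 : ∃ v' z', v' ≠ v ∧ v' ∉ M ∧ z' ∈ M ∧ ¬ G.Adj v' z'
      · obtain ⟨v', z', hvv, hv', hz', hvz'⟩ := hc2
        have hm2 := hrep v' z' hv' hz' hvz'
        refine ⟨_, _, ?_, Or.inl hm1, Or.inl hm2, rep_adj hv, rep_adj hv'⟩
        intro h
        have h3 : v ∈ rep G M v := Or.inl rfl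
        rw [h] at h3
        rcases h3 with h4 | h4
        · exact hvv h4.symm
        · exact hv h4.1
      · push Not at hc2
        obtain ⟨f, hzf⟩ := noiso z
        have hfM : f ∉ M := fun h => hM.1 z hz f h hzf
        have hfv : f ≠ v := fun h => hvz (h ▸ hzf.symm)
        obtain ⟨y, hy, hvy⟩ := hM.2 v hv
        have hyw : ∀ w, w ∉ M → G.Adj y w := by
          intro w hw
          by_cases hwv : w = v
          · rw [hwv]
            exact hvy.symm
          · exact (hc2 w y hwv hw hy).symm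
        obtain ⟨x, hx, hxy⟩ := hother y
        obtain ⟨N, hN1, hN2, hN3, hN4⟩ := pair_good hM hy hyw hfM
          (fun m hm => hc2 f m hfv hfM hm) hx hxy
        refine ⟨_, N, ?_, Or.inl hm1, hN1, rep_adj hv, hN2⟩
        intro h
        rw [← h] at hN3
        rcases hN3 with h3 | h3
        · exact hfv h3
        · exact hfM h3.1
    · push Not at hc1
      obtain ⟨x, hx, y, hy, hxy⟩ := hcard
      obtain ⟨f, hxf⟩ := noiso x
      have hfM : f ∉ M := fun h => hM.1 x hx f h hxf
      have hf' : ∃ f', f' ∉ M ∧ f' ≠ f := by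
        by_contra hno
        push Not at hno
        obtain ⟨a, b, hab, haf, hbf⟩ := hG' f
        have ha : a ∈ M := by
          by_contra h
          exact haf (hno a h)
        have hb : b ∈ M := by
          by_contra h
          exact hbf (hno b h)
        exact hM.1 a ha b hb hab
      obtain ⟨f', hf'M, hff'⟩ := hf'
      have hxw : ∀ w, w ∉ M → G.Adj x w := fun w hw => (hc1 w x hw hx).symm
      obtain ⟨N, hN1, hN2, hN3, hN4⟩ := pair_good hM hx hxw hfM
        (fun m hm => hc1 f m hfM hm) hy hxy.symm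
      obtain ⟨N', hN1', hN2', hN3', hN4'⟩ := pair_good hM hx hxw hf'M
        (fun m hm => hc1 f' m hf'M hm) hy hxy.symm
      refine ⟨N, N', ?_, hN1, hN1', hN2, hN2'⟩
      rintro rfl
      rcases hN4 hN3' with h | h
      · exact hf'M (h ▸ hx)
      · exact hff' h

theorem starlike_of_acyclic (n : ℕ) : ∀ (V : Type u) [Finite V] (G : SimpleGraph V),
    Nat.card V ≤ n → (reconf G).IsAcyclic → Starlike G := by
  induction n with
  | zero =>
    intro V _ G hn hac
    have : IsEmpty V := by
      by_contra h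
      rw [not_isEmpty_iff] at h
      have := Nat.card_pos (α := V)
      omega
    exact Or.inl fun a => (this.false a).elim
  | succ n ih =>
    intro V _ G hn hac
    by_contra hG
    have H1 : ∀ z, Starlike (G.induce (away G z)) := by
      intro z
      refine ih _ _ ?_ (acyclic_away G z hac)
      have h1 : Nat.card (away G z) < Nat.card V := by
        apply Finite.card_subtype_lt (x := z)
        exact fun h => h.1 rfl
      omega
    refine not_acyclic_of_two (reconf G) {N | Good G N.1} ?_ ?_ hac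
    · obtain ⟨K, -, hK⟩ := exists_mis G ∅ (by simp)
      exact ⟨⟨K, hK.minDom⟩, Or.inl hK⟩
    · rintro ⟨N, hN⟩ hgood
      rcases hgood with hmis | ⟨hmd, K₁, K₂, h1, h2, h3, h4, h5⟩
      · obtain ⟨N₁, N₂, hne, g1, g2, r1, r2⟩ := two_good H1 hG hmis
        exact ⟨⟨N₁, g1.minDom⟩, g1, ⟨N₂, g2.minDom⟩, g2,
          fun h => hne (congrArg Subtype.val h), r1, r2⟩
      · exact ⟨⟨K₁, h1.minDom⟩, Or.inl h1, ⟨K₂, h2.minDom⟩, Or.inl h2,
          fun h => h3 (congrArg Subtype.val h), h4, h5⟩

/-- the two minimal dominating sets of a star-like graph with at least one edge -/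
theorem starlike_minDom {G : SimpleGraph V} {c l : V} (hc : ∀ a b, G.Adj a b → a = c ∨ b = c)
    (hl : G.Adj c l) (M : Set V) :
    MinDominating G M ↔ M = (G.neighborSet c)ᶜ ∨ M = {c}ᶜ := by
  have hadj : ∀ a b, G.Adj a b → (a = c ∧ G.Adj c b) ∨ (b = c ∧ G.Adj c a) := by
    intro a b hab
    rcases hc a b hab with rfl | rfl
    · exact Or.inl ⟨rfl, hab⟩
    · exact Or.inr ⟨rfl, hab.symm⟩
  constructor
  · intro hM
    have hiso : ∀ w, w ≠ c → ¬ G.Adj c w → w ∈ M := by
      intro w hwc hw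
      rcases hM.1 w with h | ⟨x, hx, hwx⟩
      · exact h
      · rcases hadj w x hwx with h | h
        · exact absurd h.1 hwc
        · exact absurd h.2 hw
    by_cases hcM : c ∈ M
    · left
      ext w
      simp only [Set.mem_compl_iff, mem_neighborSet]
      constructor
      · intro hw hcw
        refine hM.2 w hw fun v => ?_
        by_cases hvw : v = w
        · subst hvw
          exact Or.inr ⟨c, ⟨hcM, fun h => hcw.ne h⟩, hcw.symm⟩
        rcases hM.1 v with h | ⟨x, hx, hvx⟩
        · exact Or.inl ⟨h, hvw⟩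
        · rcases hadj v x hvx with h | h
          · exact Or.inl ⟨h.1 ▸ hcM, hvw⟩
          · exact Or.inr ⟨c, ⟨hcM, fun h => hcw.ne h⟩, h.2.symm⟩
      · intro hw
        by_cases hwc : w = c
        · exact hwc ▸ hcM
        · exact hiso w hwc hw
    · right
      ext w
      simp only [Set.mem_compl_iff, Set.mem_singleton_iff]
      constructor
      · rintro hw rfl
        exact hcM hw
      · intro hwc
        rcases hM.1 w with h | ⟨x, hx, hwx⟩
        · exact h
        · rcases hadj w x hwx with h | h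
          · exact absurd h.1 hwc
          · exact absurd (h.1 ▸ hx) hcM
  · rintro (rfl | rfl)
    · refine MIS.minDom ⟨?_, ?_⟩
      · intro a ha b hb hab
        rcases hadj a b hab with h | h
        · exact hb h.2
        · exact ha h.2
      · intro v hv
        have hcv : G.Adj c v := by
          by_contra h
          exact hv h
        exact ⟨c, fun h => h.ne rfl, hcv.symm⟩
    · refine MIS.minDom ⟨?_, ?_⟩
      · intro a ha b hb hab
        rcases hadj a b hab with h | h
        · exact ha h.1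
        · exact hb h.1
      · intro v hv
        have hvc : v = c := by
          by_contra h
          exact hv h
        subst hvc
        exact ⟨l, hl.ne', hl⟩

theorem edgeless_minDom {G : SimpleGraph V} (hG : ∀ a b, ¬ G.Adj a b) (M : Set V) :
    MinDominating G M ↔ M = Set.univ := by
  constructor
  · intro hM
    ext w
    simp only [Set.mem_univ, iff_true]
    rcases hM.1 w with h | ⟨x, hx, hwx⟩
    · exact h
    · exact absurd hwx (hG w x)
  · rintro rfl
    exact MIS.minDom ⟨fun a _ b _ => hG a b, fun v hv => absurd (Set.mem_univ v) hv⟩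

theorem isTree_of_starlike {G : SimpleGraph V} (hG : Starlike G) : (reconf G).IsTree := by
  by_cases hE : ∀ a b, ¬ G.Adj a b
  · have h1 : Subsingleton {M : Set V // MinDominating G M} := by
      refine ⟨fun a b => Subtype.ext ?_⟩
      rw [(edgeless_minDom hE a.1).1 a.2, (edgeless_minDom hE b.1).1 b.2]
    have h2 : Nonempty {M : Set V // MinDominating G M} :=
      ⟨⟨Set.univ, (edgeless_minDom hE _).2 rfl⟩⟩
    exact IsTree.of_subsingleton
  · rcases hG with hG | ⟨c, hc⟩
    · exact absurd hG hE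
    push Not at hE
    obtain ⟨a, b, hab⟩ := hE
    have hl : ∃ l, G.Adj c l := by
      rcases hc a b hab with rfl | rfl
      · exact ⟨_, hab⟩
      · exact ⟨_, hab.symm⟩
    obtain ⟨l, hl⟩ := hl
    have hA : MinDominating G (G.neighborSet c)ᶜ := (starlike_minDom hc hl _).2 (Or.inl rfl)
    have hB : MinDominating G {c}ᶜ := (starlike_minDom hc hl _).2 (Or.inr rfl)
    have hne : (G.neighborSet c)ᶜ ≠ ({c}ᶜ : Set V) := by
      intro h
      have h1 : c ∈ (G.neighborSet c)ᶜ := fun h => h.ne rfl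
      rw [h] at h1
      exact h1 rfl
    have hR : RAdj G (G.neighborSet c)ᶜ {c}ᶜ := by
      refine ⟨hne, c, Or.inr ⟨?_, ?_⟩⟩
      · ext w
        constructor
        · rintro ⟨h1, h2⟩
          by_contra h3
          exact h2 h3
        · rintro rfl
          exact ⟨fun h => h.ne rfl, fun h => h rfl⟩
      · rintro w ⟨h1, h2⟩
        by_contra h3
        exact h2 h3
    have hcases : ∀ M : {M : Set V // MinDominating G M},
        M = ⟨_, hA⟩ ∨ M = ⟨_, hB⟩ := by
      rintro ⟨M, hM⟩
      rcases (starlike_minDom hc hl M).1 hM with h | h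
      · exact Or.inl (Subtype.ext h)
      · exact Or.inr (Subtype.ext h)
    have hadj : (reconf G).Adj ⟨_, hA⟩ ⟨_, hB⟩ := hR
    refine ⟨?_, ?_⟩
    · have : Nonempty {M : Set V // MinDominating G M} := ⟨⟨_, hA⟩⟩
      refine ⟨fun x y => ?_⟩
      rcases hcases x with rfl | rfl <;> rcases hcases y with rfl | rfl
      · exact Reachable.refl _
      · exact hadj.reachable
      · exact hadj.symm.reachable
      · exact Reachable.refl _
    · apply IsAcyclic.of_card_le_two
      have h1 : (Set.univ : Set {M : Set V // MinDominating G M}) ⊆ {⟨_, hA⟩, ⟨_, hB⟩} :=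
        fun x _ => hcases x
      have hBne : (⟨_, hA⟩ : {M : Set V // MinDominating G M}) ≠ ⟨_, hB⟩ :=
        fun h => hne (congrArg Subtype.val h)
      rw [← Set.encard_univ]
      exact (Set.encard_le_encard h1).trans (Set.encard_pair hBne).le

theorem starlike_iff_iso [Finite V] [Nonempty V] (G : SimpleGraph V) :
    Starlike G ↔ ∃ n m : ℕ, Nonempty
      (G ≃g ((⊥ : SimpleGraph (Fin n)) ⊕g completeBipartiteGraph (Fin 1) (Fin m))) := by
  constructor
  · intro hG
    have hc : ∃ c, ∀ a b, G.Adj a b → a = c ∨ b = c := by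
      rcases hG with hG | hG
      · exact ⟨Classical.arbitrary V, fun a b hab => absurd hab (hG a b)⟩
      · exact hG
    obtain ⟨c, hc⟩ := hc
    have hadj : ∀ a b, G.Adj a b ↔ (a = c ∧ G.Adj c b) ∨ (b = c ∧ G.Adj c a) := by
      intro a b
      constructor
      · intro hab
        rcases hc a b hab with rfl | rfl
        · exact Or.inl ⟨rfl, hab⟩
        · exact Or.inr ⟨rfl, hab.symm⟩
      · rintro (⟨rfl, h⟩ | ⟨rfl, h⟩)
        · exact h
        · exact h.symm
    let I : Set V := {w | w ≠ c ∧ ¬ G.Adj c w}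
    let L : Set V := {w | G.Adj c w}
    let e1 : I ≃ Fin (Nat.card I) := Finite.equivFin I
    let e2 : L ≃ Fin (Nat.card L) := Finite.equivFin L
    let F : Fin (Nat.card I) ⊕ (Fin 1 ⊕ Fin (Nat.card L)) → V := fun x =>
      match x with
      | Sum.inl i => (e1.symm i).1
      | Sum.inr (Sum.inl _) => c
      | Sum.inr (Sum.inr j) => (e2.symm j).1
    have hI : ∀ i, (e1.symm i).1 ≠ c ∧ ¬ G.Adj c (e1.symm i).1 := fun i => (e1.symm i).2
    have hL : ∀ j, G.Adj c (e2.symm j).1 := fun j => (e2.symm j).2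
    have hF : Function.Bijective F := by
      constructor
      · rintro (i | i | i) (j | j | j) h
        · have h1 : (e1.symm i).1 = (e1.symm j).1 := h
          rw [e1.symm.injective (Subtype.ext h1)]
        · exact absurd h (hI i).1
        · have h1 : (e1.symm i).1 = (e2.symm j).1 := h
          exact absurd (h1 ▸ hL j) (hI i).2
        · exact absurd h.symm (hI j).1
        · rw [Subsingleton.elim i j]
        · have h1 : c = (e2.symm j).1 := h
          exact absurd h1 (hL j).ne
        · have h1 : (e2.symm i).1 = (e1.symm j).1 := h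
          exact absurd (h1 ▸ hL i) (hI j).2
        · have h1 : (e2.symm i).1 = c := h
          exact absurd h1.symm (hL i).ne
        · have h1 : (e2.symm i).1 = (e2.symm j).1 := h
          rw [e2.symm.injective (Subtype.ext h1)]
      · intro w
        by_cases h1 : w = c
        · exact ⟨Sum.inr (Sum.inl 0), h1.symm⟩
        by_cases h2 : G.Adj c w
        · refine ⟨Sum.inr (Sum.inr (e2 ⟨w, h2⟩)), ?_⟩
          change (e2.symm (e2 ⟨w, h2⟩)).1 = w
          rw [Equiv.symm_apply_apply]
        · refine ⟨Sum.inl (e1 ⟨w, h1, h2⟩), ?_⟩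
          change (e1.symm (e1 ⟨w, h1, h2⟩)).1 = w
          rw [Equiv.symm_apply_apply]
    refine ⟨Nat.card I, Nat.card L, ⟨RelIso.symm ⟨Equiv.ofBijective F hF, ?_⟩⟩⟩
    intro x y
    change G.Adj (F x) (F y) ↔ _
    rw [hadj]
    rcases x with (i | i | i) <;> rcases y with (j | j | j)
    · simp only [F, sum_adj, bot_adj, iff_false]
      rintro (h | h)
      · exact (hI i).1 h.1
      · exact (hI i).2 h.2
    · simp only [F, sum_adj, iff_false]
      rintro (h | h)
      · exact (hI i).1 h.1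
      · exact (hI i).2 h.2
    · simp only [F, sum_adj, iff_false]
      rintro (h | h)
      · exact (hI i).1 h.1
      · exact (hI i).2 h.2
    · simp only [F, sum_adj, iff_false]
      rintro (h | h)
      · exact (hI j).2 h.2
      · exact (hI j).1 h.1
    · simp [F]
    · have h3 := hL j
      simp [F]
      exact h3
    · simp only [F, sum_adj, iff_false]
      rintro (h | h)
      · exact (hI j).2 h.2
      · exact (hI j).1 h.1
    · have h3 := hL i
      simp [F]
      exact h3
    · simp only [F, sum_adj, completeBipartiteGraph_adj]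
      have h1 := (hL i).ne
      have h2 := (hL j).ne
      constructor
      · rintro (h | h)
        · exact absurd h.1.symm h1
        · exact absurd h.1.symm h2
      · simp
  · rintro ⟨n, m, ⟨e⟩⟩
    refine Or.inr ⟨e.symm (Sum.inr (Sum.inl 0)), fun a b hab => ?_⟩
    have h1 := e.map_adj_iff.2 hab
    rcases ha : e a with (i | i | i) <;> rcases hb : e b with (j | j | j) <;>
      rw [ha, hb] at h1
    · simp at h1
    · simp at h1
    · simp at h1
    · simp at h1
    · simp at h1
    · left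
      rw [← e.symm_apply_apply a, ha, Subsingleton.elim i 0]
    · simp at h1
    · right
      rw [← e.symm_apply_apply b, hb, Subsingleton.elim j 0]
    · simp at h1

/-- For every graph `G` with at least one vertex, the reconfiguration graph of the minimal
dominating sets of `G` is a tree iff `G` is the disjoint union of an edgeless graph and a star. -/
theorem result (V : Type u) [Finite V] [Nonempty V] (G : SimpleGraph V) :
    (reconf G).IsTree ↔ ∃ n m : ℕ, Nonempty
      (G ≃g ((⊥ : SimpleGraph (Fin n)) ⊕g completeBipartiteGraph (Fin 1) (Fin m))) := by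
  rw [← starlike_iff_iso]
  exact ⟨fun h => starlike_of_acyclic _ V G le_rfl h.isAcyclic, isTree_of_starlike⟩

end Pool.Agent.Results.MP_746574_co.ReconfTree
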